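import Pool.Agent.Y6.M.Stm

/-!
Decomposition of the quadratic term (complex amplitudes).
-/

open Set Filter Topology

set_option autoImplicit false

namespace Pool.Agent.Y219.EM.DEC

open Pool.Agent.Y6.M

section gen

variable {I : Type}

/-- Schur bound, weights on the first index. -/
lemma schur1 (k : I → I → ℂ) (R : ℝ) (D : ℕ) (hR0 : 0 ≤ R) (hR : ∀ a b, ‖k a b‖ ≤ R)
    (hd : ∀ a, {b | k a b ≠ 0}.Finite ∧ {b | k a b ≠ 0}.ncard ≤ D) (f : I → ℝ)
    (hf0 : ∀ a, 0 ≤ f a) (hf : Summable f) :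
    Summable (fun p : I × I => ‖k p.1 p.2‖ * f p.1) ∧
      ∑' p : I × I, ‖k p.1 p.2‖ * f p.1 ≤ R * D * ∑' a, f a := by
  classical
  have hsup : ∀ a, ∀ b ∉ (hd a).1.toFinset, ‖k a b‖ * f a = 0 := by
    intro a b hb
    rw [Set.Finite.mem_toFinset, Set.mem_setOf_eq, not_not] at hb
    rw [hb, norm_zero, zero_mul]
  have hrow : ∀ a, Summable (fun b => ‖k a b‖ * f a) := fun a =>
    summable_of_ne_finset_zero (s := (hd a).1.toFinset) (fun b hb => hsup a b hb)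
  have hrow' : ∀ a, ∑' b, ‖k a b‖ * f a ≤ R * D * f a := by
    intro a
    rw [tsum_eq_sum (hsup a)]
    calc ∑ b ∈ (hd a).1.toFinset, ‖k a b‖ * f a
        ≤ ∑ _b ∈ (hd a).1.toFinset, R * f a :=
          Finset.sum_le_sum (fun b _ => mul_le_mul_of_nonneg_right (hR a b) (hf0 a))
      _ = ((hd a).1.toFinset.card : ℝ) * (R * f a) := by rw [Finset.sum_const, nsmul_eq_mul]
      _ ≤ (D : ℝ) * (R * f a) := by
          apply mul_le_mul_of_nonneg_right _ (mul_nonneg hR0 (hf0 a))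
          have := (hd a).2
          rw [Set.ncard_eq_toFinset_card _ (hd a).1] at this
          exact_mod_cast this
      _ = R * D * f a := by ring
  have hnn : 0 ≤ fun p : I × I => ‖k p.1 p.2‖ * f p.1 :=
    fun p => mul_nonneg (norm_nonneg _) (hf0 _)
  have hs2 : Summable (fun a => ∑' b, ‖k a b‖ * f a) :=
    Summable.of_nonneg_of_le (fun a => tsum_nonneg (fun b => mul_nonneg (norm_nonneg _) (hf0 _)))
      hrow' (hf.mul_left (R * D))
  have hs : Summable (fun p : I × I => ‖k p.1 p.2‖ * f p.1) :=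
    (summable_prod_of_nonneg hnn).mpr ⟨hrow, hs2⟩
  refine ⟨hs, ?_⟩
  rw [hs.tsum_prod' hrow, ← tsum_mul_left]
  exact hs2.tsum_le_tsum hrow' (hf.mul_left (R * D))

/-- Schur bound, weights on the second index. -/
lemma schur2 (k : I → I → ℂ) (R : ℝ) (D : ℕ) (hR0 : 0 ≤ R) (hR : ∀ a b, ‖k a b‖ ≤ R)
    (hd : ∀ a, {b | k b a ≠ 0}.Finite ∧ {b | k b a ≠ 0}.ncard ≤ D) (f : I → ℝ)
    (hf0 : ∀ a, 0 ≤ f a) (hf : Summable f) :
    Summable (fun p : I × I => ‖k p.1 p.2‖ * f p.2) ∧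
      ∑' p : I × I, ‖k p.1 p.2‖ * f p.2 ≤ R * D * ∑' a, f a := by
  obtain ⟨h1, h2⟩ := schur1 (fun a b => k b a) R D hR0 (fun a b => hR b a) hd f hf0 hf
  refine ⟨(Equiv.prodComm I I).summable_iff.mp ?_, ?_⟩
  · exact h1
  · rw [← (Equiv.prodComm I I).tsum_eq (fun p : I × I => ‖k p.1 p.2‖ * f p.2)]
    exact h2

/-- Schur bound, both indices. -/
lemma schur (k : I → I → ℂ) (R : ℝ) (D : ℕ) (hR0 : 0 ≤ R) (hR : ∀ a b, ‖k a b‖ ≤ R)
    (hd : ∀ a, ({b | k a b ≠ 0}.Finite ∧ {b | k a b ≠ 0}.ncard ≤ D) ∧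
      {b | k b a ≠ 0}.Finite ∧ {b | k b a ≠ 0}.ncard ≤ D) (f : I → ℝ)
    (hf0 : ∀ a, 0 ≤ f a) (hf : Summable f) :
    Summable (fun p : I × I => ‖k p.1 p.2‖ * (f p.1 + f p.2)) ∧
      ∑' p : I × I, ‖k p.1 p.2‖ * (f p.1 + f p.2) ≤ 2 * R * D * ∑' a, f a := by
  obtain ⟨h1, h2⟩ := schur1 k R D hR0 hR (fun a => (hd a).1) f hf0 hf
  obtain ⟨h3, h4⟩ := schur2 k R D hR0 hR (fun a => (hd a).2) f hf0 hf
  have he : (fun p : I × I => ‖k p.1 p.2‖ * (f p.1 + f p.2))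
      = fun p : I × I => ‖k p.1 p.2‖ * f p.1 + ‖k p.1 p.2‖ * f p.2 := by
    funext p; ring
  rw [he]
  refine ⟨h1.add h3, ?_⟩
  rw [h1.tsum_add h3]
  linarith

/-- Absolute convergence. -/
lemma absconv (k : I → I → ℂ) (R : ℝ) (D : ℕ) (hR0 : 0 ≤ R) (hR : ∀ a b, ‖k a b‖ ≤ R)
    (hd : ∀ a, ({b | k a b ≠ 0}.Finite ∧ {b | k a b ≠ 0}.ncard ≤ D) ∧
      {b | k b a ≠ 0}.Finite ∧ {b | k b a ≠ 0}.ncard ≤ D) (z : I → ℂ)
    (hz : Summable (fun a => ‖z a‖ ^ 2)) (hz1 : ∑' a, ‖z a‖ ^ 2 ≤ 1) :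
    Summable (fun p : I × I => ‖k p.1 p.2 * z p.1 * z p.2‖) ∧
      ‖∑' p : I × I, k p.1 p.2 * z p.1 * z p.2‖ ≤ 2 * R * D := by
  obtain ⟨h1, h2⟩ := schur k R D hR0 hR hd (fun a => ‖z a‖ ^ 2) (fun a => sq_nonneg _) hz
  have hle : ∀ p : I × I, ‖k p.1 p.2 * z p.1 * z p.2‖
      ≤ ‖k p.1 p.2‖ * (‖z p.1‖ ^ 2 + ‖z p.2‖ ^ 2) := by
    intro p
    rw [mul_assoc, norm_mul, norm_mul]
    apply mul_le_mul_of_nonneg_left _ (norm_nonneg _)
    nlinarith [sq_nonneg (‖z p.1‖ - ‖z p.2‖), sq_nonneg (‖z p.1‖), sq_nonneg (‖z p.2‖)]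
  have hs : Summable (fun p : I × I => ‖k p.1 p.2 * z p.1 * z p.2‖) :=
    Summable.of_nonneg_of_le (fun p => norm_nonneg _) hle h1
  refine ⟨hs, ?_⟩
  have h3 : ‖∑' p : I × I, k p.1 p.2 * z p.1 * z p.2‖
      ≤ ∑' p : I × I, ‖k p.1 p.2 * z p.1 * z p.2‖ :=
    norm_tsum_le_tsum_norm (f := fun p : I × I => k p.1 p.2 * z p.1 * z p.2) hs
  have h4 := hs.tsum_le_tsum hle h1
  have h5 : 2 * R * D * ∑' a, ‖z a‖ ^ 2 ≤ 2 * R * D * 1 :=
    mul_le_mul_of_nonneg_left hz1 (by positivity)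
  linarith

/-- The remainder. -/
lemma rem (k : I → I → ℂ) (R : ℝ) (D : ℕ) (hR0 : 0 ≤ R) (hR : ∀ a b, ‖k a b‖ ≤ R)
    (hd : ∀ a, ({b | k a b ≠ 0}.Finite ∧ {b | k a b ≠ 0}.ncard ≤ D) ∧
      {b | k b a ≠ 0}.Finite ∧ {b | k b a ≠ 0}.ncard ≤ D) (z : I → ℂ)
    (hz1 : ∀ a, ‖z a‖ ≤ 1) (hsum : Summable (fun p : I × I => ‖k p.1 p.2 * z p.1 * z p.2‖))
    (h : I → ℝ) (h0 : ∀ a, 0 ≤ h a) (hh : Summable h) (Q : Finset (I × I))
    (hQ : ∀ p ∉ Q, k p.1 p.2 ≠ 0 → ‖z p.1‖ ≤ h p.1 ∨ ‖z p.2‖ ≤ h p.2) :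
    ‖∑' p : I × I, k p.1 p.2 * z p.1 * z p.2 - ∑ p ∈ Q, k p.1 p.2 * z p.1 * z p.2‖
      ≤ 2 * R * D * ∑' a, h a := by
  classical
  obtain ⟨h1, h2⟩ := schur k R D hR0 hR hd h h0 hh
  set F : I × I → ℂ := fun p => k p.1 p.2 * z p.1 * z p.2 with hF
  have hFs : Summable F := hsum.of_norm
  set G : I × I → ℂ := fun p => if p ∈ Q then 0 else F p with hG
  set H : I × I → ℂ := fun p => if p ∈ Q then F p else 0 with hH
  have hHs : HasSum H (∑ p ∈ Q, F p) := by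
    have : ∑ p ∈ Q, F p = ∑ p ∈ Q, H p := by
      apply Finset.sum_congr rfl
      intro p hp
      simp only [hH, if_pos hp]
    rw [this]
    apply hasSum_sum_of_ne_finset_zero
    intro p hp
    simp only [hH, if_neg hp]
  have hGH : G = fun p => F p - H p := by
    funext p
    simp only [hG, hH]
    split_ifs <;> ring
  have hGs : HasSum G (∑' p, F p - ∑ p ∈ Q, F p) := by
    rw [hGH]
    exact hFs.hasSum.sub hHs
  have hle : ∀ p : I × I, ‖G p‖ ≤ ‖k p.1 p.2‖ * (h p.1 + h p.2) := by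
    intro p
    simp only [hG]
    by_cases hp : p ∈ Q
    · rw [if_pos hp, norm_zero]
      exact mul_nonneg (norm_nonneg _) (add_nonneg (h0 _) (h0 _))
    · rw [if_neg hp]
      by_cases hk : k p.1 p.2 = 0
      · simp only [hF]
        rw [hk, zero_mul, zero_mul, norm_zero, zero_mul]
      · simp only [hF]
        rw [mul_assoc, norm_mul, norm_mul]
        apply mul_le_mul_of_nonneg_left _ (norm_nonneg _)
        rcases hQ p hp hk with h3 | h3
        · calc ‖z p.1‖ * ‖z p.2‖ ≤ ‖z p.1‖ * 1 :=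
                mul_le_mul_of_nonneg_left (hz1 _) (norm_nonneg _)
            _ ≤ h p.1 + h p.2 := by linarith [h0 p.2]
        · calc ‖z p.1‖ * ‖z p.2‖ ≤ 1 * ‖z p.2‖ :=
                mul_le_mul_of_nonneg_right (hz1 _) (norm_nonneg _)
            _ ≤ h p.1 + h p.2 := by linarith [h0 p.1]
  have hGa : Summable (fun p => ‖G p‖) :=
    Summable.of_nonneg_of_le (fun p => norm_nonneg _) hle h1
  have h6 : ‖∑' p, G p‖ ≤ ∑' p, ‖G p‖ := norm_tsum_le_tsum_norm (f := G) hGa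
  have h7 := hGa.tsum_le_tsum hle h1
  rw [← hGs.tsum_eq]
  linarith

end gen

/-- `tail` as a sum. -/
lemma tail_sum {I : Type} (lv : I → ℕ) (σ : I → ℝ) (P : ℕ) (z : I → ℂ) (hz : Adm σ z) :
    Summable (fun j => if σ j ≠ 0 ∧ P ≤ lv j then ‖z j‖ else 0) := by
  classical
  refine Summable.of_nonneg_of_le (fun j => ?_) (fun j => ?_) hz.oth
  · split_ifs
    · exact norm_nonneg _
    · exact le_rfl
  · by_cases h : σ j = 0
    · rw [if_neg (fun h' => h'.1 h), if_pos h]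
    · rw [if_neg h]
      split_ifs
      · exact le_rfl
      · exact norm_nonneg _

lemma adm_one {I : Type} {σ : I → ℝ} {z : I → ℂ} (hz : Adm σ z) (a : I) : ‖z a‖ ≤ 1 := by
  have h1 : ‖z a‖ ^ 2 ≤ ∑' b, ‖z b‖ ^ 2 := hz.sq.le_tsum a (fun b _ => sq_nonneg _)
  have h2 := hz.le
  nlinarith [norm_nonneg (z a)]

theorem t_DEC : S_DEC := by
  classical
  intro I lv bar σ c hK
  choose Rf hRf using hK.bdd
  obtain ⟨D, hD⟩ := hK.deg
  have hfin : ∀ m, {i : I | lv i = m}.Finite := fun m =>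
    (hK.fin m).subset fun i hi => le_of_eq hi
  set R : ℕ → ℝ := fun m => 1 + 2 * D * ∑ i ∈ (hfin m).toFinset, |Rf i| with hR
  have hR1 : ∀ m, 1 ≤ R m := by
    intro m
    have : 0 ≤ 2 * (D : ℝ) * ∑ i ∈ (hfin m).toFinset, |Rf i| := by
      apply mul_nonneg (by positivity)
      exact Finset.sum_nonneg (fun i _ => abs_nonneg _)
    simp only [hR]
    linarith
  have hRi : ∀ i, 2 * |Rf i| * D ≤ R (lv i) := by
    intro i
    have h1 : |Rf i| ≤ ∑ i ∈ (hfin (lv i)).toFinset, |Rf i| := by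
      apply Finset.single_le_sum (f := fun i => |Rf i|) (fun i _ => abs_nonneg _)
      rw [Set.Finite.mem_toFinset]
      exact rfl
    have h2 : 2 * (D : ℝ) * |Rf i| ≤ 2 * (D : ℝ) * ∑ i ∈ (hfin (lv i)).toFinset, |Rf i| :=
      mul_le_mul_of_nonneg_left h1 (by positivity)
    simp only [hR]
    linarith
  have hb : ∀ i a b, ‖c i a b‖ ≤ |Rf i| := fun i a b => (hRf i a b).trans (le_abs_self _)
  have hconv : ∀ z, Adm σ z → ∀ i, Summable (fun p : I × I => ‖c i p.1 p.2 * z p.1 * z p.2‖) ∧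
      ‖qd c z i‖ ≤ R (lv i) := by
    intro z hz i
    obtain ⟨h1, h2⟩ := absconv (c i) |Rf i| D (abs_nonneg _) (hb i) (hD i) z hz.sq hz.le
    exact ⟨h1, h2.trans (hRi i)⟩
  have hrem : ∀ z, Adm σ z → ∀ i P (Q : Finset (I × I)),
      (∀ p ∉ Q, c i p.1 p.2 ≠ 0 → ∃ j, (j = p.1 ∨ j = p.2) ∧ σ j ≠ 0 ∧ P ≤ lv j) →
      ‖qd c z i - ∑ p ∈ Q, c i p.1 p.2 * z p.1 * z p.2‖ ≤ R (lv i) * tail lv σ P z := by
    intro z hz i P Q hQ
    have h1 := tail_sum lv σ P z hz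
    have h0 : ∀ a, 0 ≤ (fun j => if σ j ≠ 0 ∧ P ≤ lv j then ‖z j‖ else 0) a := by
      intro a
      simp only
      split_ifs
      · exact norm_nonneg _
      · exact le_rfl
    have h3 := rem (c i) |Rf i| D (abs_nonneg _) (hb i) (hD i) z (adm_one hz) (hconv z hz i).1
      _ h0 h1 Q (by
        intro p hp hc
        obtain ⟨j, hj, hs, hPj⟩ := hQ p hp hc
        rcases hj with hj | hj
        · left
          rw [← hj, if_pos ⟨hs, hPj⟩]
        · right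
          rw [← hj, if_pos ⟨hs, hPj⟩])
    have h4 : 0 ≤ tail lv σ P z := tsum_nonneg h0
    exact h3.trans (mul_le_mul_of_nonneg_right (hRi i) h4)
  refine ⟨R, hR1, hconv, ?_, ?_⟩
  · intro w P _
    have hQf : {p : I × I | c w p.1 p.2 ≠ 0 ∧
        ∀ j, (j = p.1 ∨ j = p.2) → σ j ≠ 0 → lv j < P}.Finite := by
      have hA := hK.mfin w
      have hB : (⋃ j ∈ {j | lv j ≤ P}, (fun b : I => (j, b)) '' {b | c w j b ≠ 0}).Finite :=
        (hK.fin P).biUnion (fun j _ => (hD w j).1.1.image _)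
      have hC : (⋃ j ∈ {j | lv j ≤ P}, (fun b : I => (b, j)) '' {b | c w b j ≠ 0}).Finite :=
        (hK.fin P).biUnion (fun j _ => (hD w j).2.1.image _)
      apply Set.Finite.subset ((hA.union hB).union hC)
      rintro ⟨a, b⟩ ⟨h1, h2⟩
      simp only at h1 h2
      by_cases ha : σ a = 0
      · by_cases hb : σ b = 0
        · left; left
          exact ⟨ha, hb, h1⟩
        · right
          rw [Set.mem_iUnion₂]
          exact ⟨b, (h2 b (Or.inr rfl) hb).le, a, h1, rfl⟩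
      · left; right
        rw [Set.mem_iUnion₂]
        exact ⟨a, (h2 a (Or.inl rfl) ha).le, b, h1, rfl⟩
    refine ⟨hQf.toFinset, ?_, ?_⟩
    · intro p hp j hj
      rw [Set.Finite.mem_toFinset, Set.mem_setOf_eq] at hp
      exact hp.2 j hj
    · intro z hz
      apply hrem z hz w P
      intro p hp hc
      rw [Set.Finite.mem_toFinset, Set.mem_setOf_eq] at hp
      by_contra hcon
      push Not at hcon
      exact hp ⟨hc, fun j hj hs => hcon j hj hs⟩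
  · intro i z hi hz
    have h1 := hrem z hz i (lv i - 1) (hK.mfin i).toFinset (by
      intro p hp hc
      rw [Set.Finite.mem_toFinset, Set.mem_setOf_eq] at hp
      have hm : σ p.1 ≠ 0 ∨ σ p.2 ≠ 0 := by
        by_contra hcon
        push Not at hcon
        exact hp ⟨hcon.1, hcon.2, hc⟩
      obtain ⟨j, hj, hs, hn⟩ := hK.sep i p.1 p.2 hi hc hm
      exact ⟨j, hj, hs, by omega⟩)
    have h2 : ∑ p ∈ (hK.mfin i).toFinset, c i p.1 p.2 * z p.1 * z p.2 = mq σ c z i := by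
      unfold mq
      rw [tsum_eq_sum (s := (hK.mfin i).toFinset)]
      · refine Finset.sum_congr rfl fun p hp => ?_
        rw [Set.Finite.mem_toFinset, Set.mem_setOf_eq] at hp
        rw [if_pos ⟨hp.1, hp.2.1⟩]
      · intro p hp
        rw [Set.Finite.mem_toFinset, Set.mem_setOf_eq] at hp
        by_cases h : σ p.1 = 0 ∧ σ p.2 = 0
        · rw [if_pos h]
          have : c i p.1 p.2 = 0 := by
            by_contra hc
            exact hp ⟨h.1, h.2, hc⟩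
          rw [this, zero_mul, zero_mul]
        · rw [if_neg h]
    rw [h2] at h1
    exact h1

end Pool.Agent.Y219.EM.DEC
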